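import Pool.Agent.W484.CK.Motivic
import Pool.Agent.Y159.Par.Parshin
import Pool.Agent.K4H33.WN.Defs

/-!
# K-theory of products of varieties over finite fields and slopes: definitions
-/

set_option autoImplicit false

open CategoryTheory AlgebraicGeometry Polynomial

universe u v w

namespace Pool.Agent.K4H33.PK

open Pool.Agent.H914 Pool.Agent.H914.VarClass Pool.Agent.H914.VarClass.Obj Pool.Agent.W492.BB
  Pool.Agent.W484.CK Pool.Agent.Y159.Par Pool.Agent.K4H33.WN

variable {k : Type u} [Field k] {𝒱 : VarClass k}

/-- The Frobenius endomorphisms, relative to the ground field with `Q` elements, of all varieties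
of the class, compatible with products. -/
structure FrobeniusFamily (C : TheoryData.{u, v, 0} 𝒱 ℚ) (Q : ℕ) where
  /-- the Frobenius endomorphism of `X` -/
  F : ∀ X : 𝒱.Obj, X ⟶ X
  isFrobenius : ∀ X, IsFrobenius C (F X) Q
  prod : ∀ X Y : 𝒱.Obj, F (X.prod Y) = prodMap (F X) (F Y)

/-- The variety `Z` is a product of the varieties `X l`, `l ∈ S`, in any order and with any
brackets; each of them occurs once. -/
inductive IsProductOnce {κ : Type} [DecidableEq κ] (X : κ → 𝒱.Obj) : Finset κ → 𝒱.Obj → Prop
  | base (l : κ) : IsProductOnce X {l} (X l)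
  | prod {S T : Finset κ} {Y Z : 𝒱.Obj} : Disjoint S T → IsProductOnce X S Y →
      IsProductOnce X T Z → IsProductOnce X (S ∪ T) (Y.prod Z)

variable {C : TheoryData.{u, v, 0} 𝒱 ℚ} {K : Type w} [Field K] (H : WeilTheoryData.{u, v, w} C K)
  {Q : ℕ} (φ : FrobeniusFamily C Q)

/-- The number `ρ` is an eigenvalue of the Frobenius endomorphism on `H^i(X)`. -/
def IsEigenvalue (X : 𝒱.Obj) (i : ℕ) (ρ : K) : Prop :=
  ∃ v : H.A X, H.Deg i v ∧ v ≠ 0 ∧ H.up (φ.F X) v = ρ • v

/-- The irreducible factors over the rational numbers of the characteristic polynomial of the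
Frobenius endomorphism on `H^i(X)`, that is the minimal polynomials of the eigenvalues. -/
def factors [CharZero K] (X : 𝒱.Obj) (i : ℕ) : Set ℚ[X] :=
  {f | ∃ ρ : K, IsEigenvalue H φ X i ρ ∧ f = minpoly ℚ ρ}

/-- The variety `X` is *pure*: the eigenvalues of the Frobenius endomorphism on `H^i(X)` are Weil
numbers of weight `i`, that is algebraic integers all of whose complex conjugates have the absolute
value `q ^ (i / 2)`, `q = p ^ e`. -/
def IsPure [CharZero K] (p e : ℕ) (X : 𝒱.Obj) : Prop :=
  ∀ (i : ℕ) (ρ : K), IsEigenvalue H φ X i ρ → IsWeilNumber p e i ρ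

/-- The map `F - Q ^ n` on the cohomology of `X`, where `F` is the Frobenius endomorphism. -/
def frobMinus (X : 𝒱.Obj) (n : ℕ) (x : H.A X) : H.A X := H.up (φ.F X) x - (Q : K) ^ n • x

/-- The class `c` is the class of a cycle of codimension `n`. -/
def IsCycleClass (X : 𝒱.Obj) (n : ℕ) (c : H.A X) : Prop := ∃ D : C.A X, C.Deg n D ∧ c = H.cl D

/-- The Tate conjecture for `X` over the ground field with `Q` elements and its finite extensions,
with the semisimplicity of Frobenius on the Tate classes, for `X` such that the Tate classes over all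
finite extensions are defined over the ground field: the eigenvalues of Frobenius on `H^(2 n)(X)` a
power of which is a power of `Q ^ n` are equal to `Q ^ n`, and the classes in `H^(2 n)(X)` killed by a
power of `F - Q ^ n` are linear combinations of classes of cycles. -/
structure TateOver (X : 𝒱.Obj) : Prop where
  rational : ∀ (n N : ℕ) (ρ : K), IsEigenvalue H φ X (2 * n) ρ → 0 < N →
    ρ ^ N = (Q : K) ^ (n * N) → ρ = (Q : K) ^ n
  tate : ∀ (n m : ℕ) (x : H.A X), H.Deg (2 * n : ℕ) x → (frobMinus H φ X n)^[m] x = 0 →
      InSpan H (IsCycleClass H X n) x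

/-- For the rational `K`-groups `T = K_m` (`m` arbitrary), `K_m(Z × U)` is the direct sum of copies
of `K_m(U)`, multiplied with finitely many cycles on `Z` (the same for all `m`), and Parshin's
conjecture for `Z × U` is equivalent to Parshin's conjecture for `U`. -/
def KReduces (Z U : 𝒱.Obj) : Prop :=
  Nilpotence H (Z.prod U) → ∃ (J : Type) (_ : Fintype J) (deg : J → ℕ) (D : J → C.A Z),
    (∀ j, C.Deg (deg j) (D j)) ∧ ∀ T : MotivicData C, IsRationalKGroup T →
      ActsAsPower T (φ.F (Z.prod U)) Q → HasKunneth T Z U deg D ∧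
        (Parshin T (Z.prod U) ↔ Parshin T U)

/-- Parshin's conjecture for `Z`: the rational `K`-group `T(Z) = K_m(Z)_ℚ` vanishes if `T` vanishes for
points (for `m > 0` this is a theorem of Quillen). Here it is assumed that homologically trivial
self-correspondences of degree zero of `Z`, or of the product of `Z` with a point `P`, are
nilpotent. -/
def ParshinHolds (Z : 𝒱.Obj) : Prop :=
  ∀ P : 𝒱.Obj, P.dim = 0 → Nilpotence H (Z.prod P) → ∀ T : MotivicData C, IsRationalKGroup T →
    ActsAsPower T (φ.F (Z.prod P)) Q → Parshin T P → Parshin T Z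

end Pool.Agent.K4H33.PK
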