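import Pool.Agent.K4H33.PK.Defs
import Pool.Agent.K4H33.WN.K3
import Pool.Agent.W484.CK.Main

/-!
# Generalised eigenvectors in products
-/

set_option autoImplicit false
set_option linter.unusedSectionVars false

open CategoryTheory AlgebraicGeometry Polynomial

universe u v w

namespace Pool.Agent.K4H33.PK

open Pool.Agent.H914 Pool.Agent.H914.VarClass Pool.Agent.H914.VarClass.Obj Pool.Agent.W492.BB
  Pool.Agent.W484.CK Pool.Agent.Y159.Par Pool.Agent.K4H33.WN Pool.Agent.W550.Corr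
open Pool.Agent.W484.CH (homog_induction tr_fst tr_snd cl_smul)
open Pool.Agent.W458.MF (gen_mul gen_map span_gen_top mem_span_gen eig_mem_gen eq_of_mem_gen)

variable {k : Type u} [Field k] {𝒱 : VarClass k} {C : TheoryData.{u, v, 0} 𝒱 ℚ} {K : Type w}
  [Field K] {H : WeilTheoryData.{u, v, w} C K} {Q : ℕ} {φ : FrobeniusFamily C Q} {X Y Z U : 𝒱.Obj}

/-- The Frobenius endomorphism of the cohomology. -/
noncomputable def fr (H : WeilTheoryData.{u, v, w} C K) (φ : FrobeniusFamily C Q) (X : 𝒱.Obj) :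
    Module.End K (H.A X) := (H.pull (φ.F X)).toLinearMap

lemma fr_apply (x : H.A X) : fr H φ X x = H.pull (φ.F X) x := rfl

section

variable [CharZero K] [hC : IsChow C] [hH : IsWeil H]

lemma fr_mem {i : ℤ} {x : H.A X} (hx : x ∈ H.gr X i) : fr H φ X x ∈ H.gr X i :=
  H.pull_mem _ hx

omit hC in
/-- The Frobenius endomorphism on `H^i(X)`. -/
noncomputable def frOn (H : WeilTheoryData.{u, v, w} C K) [IsWeil H] (φ : FrobeniusFamily C Q)
    (X : 𝒱.Obj) (i : ℤ) : Module.End K (H.gr X i) :=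
  (fr H φ X).restrict (fun _ hx => H.pull_mem _ hx)

/-- A nonzero generalised eigenvector in degree `i` gives an eigenvector. -/
lemma eigen_of_gen {i : ℤ} {μ : K} {x : H.A X} (hx : x ∈ H.gr X i) (hx0 : x ≠ 0)
    (h : x ∈ (fr H φ X).maxGenEigenspace μ) :
    ∃ v ∈ H.gr X i, v ≠ 0 ∧ fr H φ X v = μ • v := by
  rw [Module.End.mem_maxGenEigenspace] at h
  obtain ⟨n, hn⟩ := h
  have hmem : ∀ n, ((fr H φ X - μ • (1 : Module.End K (H.A X))) ^ n) x ∈ H.gr X i := by
    intro n
    induction n with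
    | zero => exact hx
    | succ n ih =>
      rw [pow_succ', Module.End.mul_apply, LinearMap.sub_apply, LinearMap.smul_apply,
        Module.End.one_apply]
      exact Submodule.sub_mem _ (fr_mem ih) (Submodule.smul_mem _ _ ih)
  induction n with
  | zero =>
    rw [pow_zero, Module.End.one_apply] at hn
    exact absurd hn hx0
  | succ n ih =>
    by_cases h0 : ((fr H φ X - μ • (1 : Module.End K (H.A X))) ^ n) x = 0
    · exact ih h0
    · refine ⟨_, hmem n, h0, ?_⟩
      rw [pow_succ', Module.End.mul_apply, LinearMap.sub_apply, LinearMap.smul_apply,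
        Module.End.one_apply, sub_eq_zero] at hn
      exact hn

/-- The degree is a natural number. -/
lemma exists_degree {i : ℤ} {μ : K} {x : H.A X} (hx : x ∈ H.gr X i) (hx0 : x ≠ 0)
    (h : x ∈ (fr H φ X).maxGenEigenspace μ) : ∃ n : ℕ, i = n ∧ IsEigenvalue H φ X n μ := by
  obtain ⟨v, hv, hv0, hμ⟩ := eigen_of_gen hx hx0 h
  rcases lt_or_ge i 0 with hi | hi
  · rw [H.gr_neg X i hi, Submodule.mem_bot] at hv
    exact absurd hv hv0
  · obtain ⟨n, rfl⟩ := Int.eq_ofNat_of_zero_le hi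
    exact ⟨n, rfl, v, hv, hv0, hμ⟩

/-- Homogeneous elements are sums of homogeneous generalised eigenvectors. -/
lemma span_homog [IsAlgClosed K] (hfin : Module.Finite K (H.A X)) {i : ℤ} {x : H.A X}
    (hx : x ∈ H.gr X i) :
    x ∈ Submodule.span K {x | ∃ μ : K, x ∈ H.gr X i ∧ x ∈ (fr H φ X).maxGenEigenspace μ} := by
  have h := span_gen_top (frOn H φ X i) ⟨x, hx⟩
  have key : ∀ y : H.gr X i, y ∈ Submodule.span K {v | ∃ ν,
      v ∈ (frOn H φ X i).maxGenEigenspace ν} → (y : H.A X) ∈ Submodule.span K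
        {x | ∃ μ : K, x ∈ H.gr X i ∧ x ∈ (fr H φ X).maxGenEigenspace μ} := by
    intro y hy
    induction hy using Submodule.span_induction with
    | mem y hy =>
      obtain ⟨ν, hν⟩ := hy
      refine Submodule.subset_span ⟨ν, y.2, ?_⟩
      have h1 := gen_map (θ := (H.gr X i).subtype) (T := frOn H φ X i) (T' := fr H φ X)
        (c := (1 : K)) (ν := ν) (fun x => by rw [one_smul]; rfl) hν
      rwa [one_mul] at h1
    | zero => exact Submodule.zero_mem _
    | add x y _ _ hx hy => exact Submodule.add_mem _ hx hy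
    | smul c x _ hx => exact Submodule.smul_mem _ _ hx
  exact key _ h

/-- The generators of the cohomology of products. -/
def Gens (H : WeilTheoryData.{u, v, w} C K) (φ : FrobeniusFamily C Q) (X Y : 𝒱.Obj) (m : ℤ) :
    Set (H.A (X.prod Y)) :=
  {c | ∃ (l : ℤ) (μ ν : K) (a : H.A X) (b : H.A Y), a ∈ H.gr X l ∧ b ∈ H.gr Y (m - l) ∧
    a ∈ (fr H φ X).maxGenEigenspace μ ∧ b ∈ (fr H φ Y).maxGenEigenspace ν ∧ c = H.ext a b}

lemma fr_ext (a : H.A X) (b : H.A Y) :
    fr H φ (X.prod Y) (H.ext a b) = H.ext (fr H φ X a) (fr H φ Y b) := by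
  rw [fr_apply, φ.prod, Pool.Agent.W484.CH.pull_prodMap_ext]
  rfl

/-- The external product as a bilinear map. -/
noncomputable def extB (H : WeilTheoryData.{u, v, w} C K) [IsWeil H] (X Y : 𝒱.Obj) :
    H.A X →ₗ[K] H.A Y →ₗ[K] H.A (X.prod Y) :=
  LinearMap.mk₂ K H.ext
    (fun a b c => Pool.Agent.W484.CH.ext_add_left a b c)
    (fun q a c => by
      rw [Pool.Agent.W484.CH.ext_smul_left, Pool.Agent.W484.CH.ext_smul_right])
    (fun a b c => Pool.Agent.W484.CH.ext_add_right a b c)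
    (fun q a c => Pool.Agent.W484.CH.ext_smul_right q a c)

lemma extB_apply (a : H.A X) (b : H.A Y) : extB H X Y a b = H.ext a b := rfl

lemma ext_gen {μ ν : K} {a : H.A X} {b : H.A Y} (ha : a ∈ (fr H φ X).maxGenEigenspace μ)
    (hb : b ∈ (fr H φ Y).maxGenEigenspace ν) :
    H.ext a b ∈ (fr H φ (X.prod Y)).maxGenEigenspace (μ * ν) :=
  gen_mul (extB H X Y) (fun x y => fr_ext x y) ha hb

lemma ext_mem {i j : ℤ} {a : H.A X} {b : H.A Y} (ha : a ∈ H.gr X i) (hb : b ∈ H.gr Y j) :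
    H.ext a b ∈ H.gr (X.prod Y) (i + j) :=
  H.mul_mem (H.pull_mem _ ha) (H.pull_mem _ hb)

/-- The cohomology of products is spanned by products of homogeneous generalised eigenvectors. -/
lemma span_gens [IsAlgClosed K] (hfin : ∀ X, Module.Finite K (H.A X)) {m : ℤ}
    {x : H.A (X.prod Y)} (hx : x ∈ H.gr (X.prod Y) m) :
    x ∈ Submodule.span K (Gens H φ X Y m) := by
  have h1 := H.kunneth X Y m hx
  clear hx
  induction h1 using Submodule.span_induction with
  | mem x hx =>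
    obtain ⟨l, a, b, ha, hb, rfl⟩ := hx
    change H.ext a b ∈ _
    rw [← extB_apply]
    have ha' := span_homog (φ := φ) (hfin X) ha
    clear ha
    induction ha' using Submodule.span_induction with
    | mem a ha =>
      obtain ⟨μ, ha, hμ⟩ := ha
      have hb' := span_homog (φ := φ) (hfin Y) hb
      clear hb
      induction hb' using Submodule.span_induction with
      | mem b hb =>
        obtain ⟨ν, hb, hν⟩ := hb
        exact Submodule.subset_span ⟨l, μ, ν, a, b, ha, hb, hμ, hν, rfl⟩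
      | zero => rw [map_zero]; exact Submodule.zero_mem _
      | add x y _ _ hx hy => rw [map_add]; exact Submodule.add_mem _ hx hy
      | smul c x _ hx => rw [map_smul]; exact Submodule.smul_mem _ _ hx
    | zero => rw [map_zero, LinearMap.zero_apply]; exact Submodule.zero_mem _
    | add x y _ _ hx hy => rw [map_add, LinearMap.add_apply]; exact Submodule.add_mem _ hx hy
    | smul c x _ hx => rw [map_smul, LinearMap.smul_apply]; exact Submodule.smul_mem _ _ hx
  | zero => exact Submodule.zero_mem _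
  | add x y _ _ hx hy => exact Submodule.add_mem _ hx hy
  | smul c x _ hx => exact Submodule.smul_mem _ _ hx

lemma gens_gen {m : ℤ} : ∀ c ∈ Gens H φ X Y m, ∃ ν,
    c ∈ (fr H φ (X.prod Y)).maxGenEigenspace ν := by
  rintro _ ⟨l, μ, ν, a, b, -, -, hμ, hν, rfl⟩
  exact ⟨_, ext_gen hμ hν⟩

/-- **Generalised eigenvectors in products.** -/
theorem gen_prod [IsAlgClosed K] (hfin : ∀ X, Module.Finite K (H.A X)) {m : ℤ} {ρ : K}
    {x : H.A (X.prod Y)} (hx : x ∈ H.gr (X.prod Y) m)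
    (hρ : x ∈ (fr H φ (X.prod Y)).maxGenEigenspace ρ) :
    x ∈ Submodule.span K {c | ∃ (i j : ℕ) (μ ν : K) (a : H.A X) (b : H.A Y),
      (i : ℤ) + j = m ∧ μ * ν = ρ ∧ IsEigenvalue H φ X i μ ∧ IsEigenvalue H φ Y j ν ∧
      a ∈ H.gr X i ∧ b ∈ H.gr Y j ∧
      a ∈ (fr H φ X).maxGenEigenspace μ ∧ b ∈ (fr H φ Y).maxGenEigenspace ν ∧
      c = H.ext a b} := by
  have h1 := mem_span_gen gens_gen (span_gens hfin hx) hρ
  refine (Submodule.span_le.2 ?_) h1
  rintro _ ⟨⟨l, μ, ν, a, b, ha, hb, hμ, hν, rfl⟩, hc⟩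
  by_cases h0 : H.ext a b = 0
  · rw [h0]
    exact Submodule.zero_mem _
  have ha0 : a ≠ 0 := by
    rintro rfl
    exact h0 (H.ext_zero_left _)
  have hb0 : b ≠ 0 := by
    rintro rfl
    exact h0 (H.ext_zero_right _)
  obtain ⟨i, hi, h2⟩ := exists_degree ha ha0 hμ
  obtain ⟨j, hj, h3⟩ := exists_degree hb hb0 hν
  refine Submodule.subset_span ⟨i, j, μ, ν, a, b, by omega, ?_, h2, h3, hi ▸ ha, hj ▸ hb, hμ,
    hν, rfl⟩
  exact eq_of_mem_gen (ext_gen hμ hν) hc h0

/-- The eigenvalues of products are products. -/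
theorem eigenvalue_prod [IsAlgClosed K] (hfin : ∀ X, Module.Finite K (H.A X)) {m : ℕ} {ρ : K}
    (h : IsEigenvalue H φ (X.prod Y) m ρ) :
    ∃ (i j : ℕ) (μ ν : K), i + j = m ∧ μ * ν = ρ ∧ IsEigenvalue H φ X i μ ∧
      IsEigenvalue H φ Y j ν := by
  obtain ⟨x, hx, hx0, hρ⟩ := h
  have h1 := gen_prod (φ := φ) hfin hx (eig_mem_gen hρ)
  by_contra hcon
  apply hx0
  have h2 : Submodule.span K {c | ∃ (i j : ℕ) (μ ν : K) (a : H.A X) (b : H.A Y),
      (i : ℤ) + j = m ∧ μ * ν = ρ ∧ IsEigenvalue H φ X i μ ∧ IsEigenvalue H φ Y j ν ∧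
      a ∈ H.gr X i ∧ b ∈ H.gr Y j ∧
      a ∈ (fr H φ X).maxGenEigenspace μ ∧ b ∈ (fr H φ Y).maxGenEigenspace ν ∧
      c = H.ext a b} ≤ ⊥ := by
    refine Submodule.span_le.2 ?_
    rintro _ ⟨i, j, μ, ν, a, b, hij, hμν, hμ, hν, -⟩
    exact absurd ⟨i, j, μ, ν, by exact_mod_cast hij, hμν, hμ, hν⟩ hcon
  exact (Submodule.mem_bot _).1 (h2 h1)

end

end Pool.Agent.K4H33.PK
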