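import Pool.Agent.K4H33.PK.Kun

/-!
# Products of families, and Parshin's conjecture
-/

set_option autoImplicit false
set_option linter.unusedSectionVars false

open CategoryTheory AlgebraicGeometry Polynomial

universe u v w

namespace Pool.Agent.K4H33.PK

open Pool.Agent.H914 Pool.Agent.H914.VarClass Pool.Agent.H914.VarClass.Obj Pool.Agent.W492.BB
  Pool.Agent.W484.CK Pool.Agent.Y159.Par Pool.Agent.K4H33.WN Pool.Agent.W550.Corr
open Pool.Agent.K4H33.CP (IsCoupling slopeCount slopeCount_X_sub_one slope_unique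
  exists_root_of_marginal)

variable {k : Type u} [Field k] {𝒱 : VarClass k} {C : TheoryData.{u, v, 0} 𝒱 ℚ} {K : Type w}
  [Field K] [CharZero K] {H : WeilTheoryData.{u, v, w} C K} {p e : ℕ}
  {φ : FrobeniusFamily C (p ^ e)} {Y Z U P : 𝒱.Obj} [hC : IsChow C] [hH : IsWeil H]

lemma factors_irreducible {X : 𝒱.Obj} (hD : IsPure H φ p e X) (i : ℕ) :
    ∀ f ∈ factors H φ X i, Irreducible f := by
  rintro _ ⟨ρ, hρ, rfl⟩
  exact minpoly.irreducible (hD i ρ hρ).isIntegral

/-- The eigenvalues of products of families. -/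
lemma eigenvalue_product [IsAlgClosed K] (hfin : ∀ X, Module.Finite K (H.A X)) {κ : Type}
    [DecidableEq κ] {X : κ → 𝒱.Obj} {S : Finset κ} (hZ : IsProductOnce X S Z) :
    ∀ (i : ℕ) (lam : K), IsEigenvalue H φ Z i lam → ∃ (d : κ → ℕ) (mu : κ → K),
      (∀ l ∈ S, IsEigenvalue H φ (X l) (d l) (mu l)) ∧ ∑ l ∈ S, d l = i ∧
        lam = ∏ l ∈ S, mu l := by
  induction hZ with
  | base l =>
    intro i lam h
    refine ⟨fun _ => i, fun _ => lam, ?_, by simp, by simp⟩
    intro l' hl'
    rw [Finset.mem_singleton] at hl'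
    rw [hl']
    exact h
  | @prod S T Y Z hST _ _ ihY ihZ =>
    intro i lam h
    obtain ⟨i₁, i₂, μ₁, μ₂, rfl, rfl, h1, h2⟩ := eigenvalue_prod hfin h
    obtain ⟨d₁, m₁, h3, rfl, rfl⟩ := ihY i₁ μ₁ h1
    obtain ⟨d₂, m₂, h4, rfl, rfl⟩ := ihZ i₂ μ₂ h2
    have hT : ∀ l ∈ T, l ∉ S := fun l hl hl' => Finset.disjoint_left.1 hST hl' hl
    refine ⟨fun l => if l ∈ S then d₁ l else d₂ l, fun l => if l ∈ S then m₁ l else m₂ l,
      ?_, ?_, ?_⟩
    · intro l hl
      by_cases h : l ∈ S
      · simp only [if_pos h]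
        exact h3 l h
      · simp only [if_neg h]
        exact h4 l ((Finset.mem_union.1 hl).resolve_left h)
    · rw [Finset.sum_union hST, Finset.sum_congr rfl fun l hl => if_pos hl,
        Finset.sum_congr rfl fun l hl => if_neg (hT l hl)]
    · rw [Finset.prod_union hST, Finset.prod_congr rfl fun l hl => if_pos hl,
        Finset.prod_congr rfl fun l hl => if_neg (hT l hl)]

lemma one_isEigenvalue (hS : IsStandard H) (X : 𝒱.Obj) : IsEigenvalue H φ X 0 1 := by
  have := hS.nontrivial X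
  refine ⟨1, ?_, one_ne_zero, ?_⟩
  · exact_mod_cast H.one_mem X
  · change H.pull (φ.F X) 1 = _
    rw [map_one, one_smul]

/-- **Disjoint products of varieties with independent slopes have only trivial relations.** -/
theorem relTrivial_of_independent {κ : Type} [Fintype κ] [DecidableEq κ] [IsAlgClosed K]
    [Fact p.Prime] (he : 0 < e) (hS : IsStandard H) {V : κ → 𝒱.Obj}
    (hD : ∀ l, IsPure H φ p e (V l)) {S T : Finset κ} {S' : Set κ} (hSS : ∀ l ∈ S, l ∈ S')
    (hX : Independent p e (fun l => factors H φ (V l)) S') (hST : Disjoint S T)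
    (hY : IsProductOnce V S Y) (hZ : IsProductOnce V T Z) : RelTrivial H φ Y Z := by
  intro i j b c lam mu hlam hmu hb hrel
  obtain ⟨d₁, m₁, h1, rfl, rfl⟩ := eigenvalue_product hS.finite hY i lam hlam
  obtain ⟨d₂, m₂, h2, rfl, rfl⟩ := eigenvalue_product hS.finite hZ j mu hmu
  have hT : ∀ l ∈ T, l ∉ S := fun l hl hl' => Finset.disjoint_left.1 hST hl' hl
  let d : κ → ℕ := fun l => if l ∈ S then d₁ l else if l ∈ T then d₂ l else 0
  let m : κ → K := fun l => if l ∈ S then m₁ l else if l ∈ T then m₂ l else 1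
  have hm : ∀ l, IsEigenvalue H φ (V l) (d l) (m l) := by
    intro l
    simp only [d, m]
    by_cases hl : l ∈ S
    · rw [if_pos hl, if_pos hl]
      exact h1 l hl
    · rw [if_neg hl, if_neg hl]
      by_cases hl' : l ∈ T
      · rw [if_pos hl', if_pos hl']
        exact h2 l hl'
      · rw [if_neg hl', if_neg hl']
        exact one_isEigenvalue hS _
  have hprod : ∏ l, m l = (∏ l ∈ S, m₁ l) * ∏ l ∈ T, m₂ l := by
    have e1 : ∀ l, m l = (if l ∈ S then m₁ l else 1) * (if l ∈ T then m₂ l else 1) := by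
      intro l
      simp only [m]
      by_cases hl : l ∈ S
      · rw [if_pos hl, if_pos hl, if_neg (fun h => hT l h hl), mul_one]
      · by_cases hl' : l ∈ T
        · rw [if_neg hl, if_neg hl, if_pos hl', one_mul]
        · rw [if_neg hl, if_neg hl, if_neg hl', one_mul]
    rw [Finset.prod_congr rfl fun l _ => e1 l, Finset.prod_mul_distrib, Finset.prod_ite_mem,
      Finset.prod_ite_mem, Finset.univ_inter, Finset.univ_inter]
  have key := trivial_of_independent he (fun l => hD l _ _ (hm l)) hb (c := c) (by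
    rw [hprod, hrel]
    push_cast
    rfl) (𝓕 := fun l => factors H φ (V l)) (fun l => ⟨m l, hm l, rfl⟩) hX
  have keyS : ∀ l ∈ S, ∃ a n : ℕ, d₁ l = 2 * a ∧ 0 < n ∧
      m₁ l ^ n = ((p : K) ^ e) ^ (a * n) := by
    intro l hl
    have := key l (hSS l hl)
    simp only [d, m, if_pos hl] at this
    exact this
  choose! a n h3 h4 h5 using keyS
  refine ⟨∑ l ∈ S, a l, ∏ l ∈ S, n l, ?_, Finset.prod_pos fun l hl => h4 l hl, ?_⟩
  · rw [Finset.mul_sum]
    exact Finset.sum_congr rfl fun l hl => h3 l hl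
  · rw [← Finset.prod_pow, Finset.sum_mul]
    have h6 : ∀ l ∈ S, m₁ l ^ (∏ l ∈ S, n l) = ((p : K) ^ e) ^ (a l * ∏ l ∈ S, n l) := by
      intro l hl
      obtain ⟨r, hr⟩ : n l ∣ ∏ l ∈ S, n l := Finset.dvd_prod_of_mem n hl
      rw [hr, pow_mul, h5 l hl, ← pow_mul]
      congr 1
      ring
    rw [Finset.prod_congr rfl h6, Finset.prod_pow_eq_pow_sum]
    push_cast
    rfl

/-- The Tate conjecture for products of families. -/
theorem tateOver_family {κ : Type} [Fintype κ] [DecidableEq κ] [IsAlgClosed K]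
    [Fact p.Prime] (he : 0 < e) (hS : IsStandard H) {X : κ → 𝒱.Obj}
    (hD : ∀ l, IsPure H φ p e (X l)) (hT : ∀ l, TateOver H φ (X l))
    (hX : Independent p e (fun l => factors H φ (X l)) Set.univ) {S : Finset κ}
    (hZ : IsProductOnce X S Z) : TateOver H φ Z := by
  induction hZ with
  | base l => exact hT l
  | @prod S T Y Z hST hY hZ ihY ihZ =>
    refine tateOver_prod ?_ hS.finite ihY ihZ
      (relTrivial_of_independent he hS hD (fun l _ => Set.mem_univ l) hX hST hY hZ)
    have : (p : ℕ) ≠ 0 := (Fact.out : p.Prime).ne_zero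
    exact_mod_cast pow_ne_zero e this

lemma withU_eq {κ : Type} {X : κ → 𝒱.Obj} :
    (fun l : Option κ => factors H φ (withU X U l)) =
      withU (fun l => factors H φ (X l)) (factors H φ U) := by
  funext l
  cases l <;> rfl

lemma productOnce_withU {κ : Type} [DecidableEq κ] {X : κ → 𝒱.Obj} {S : Finset κ}
    (hZ : IsProductOnce X S Z) (U : 𝒱.Obj) :
    IsProductOnce (withU X U) (S.map Function.Embedding.some) Z := by
  induction hZ with
  | base l =>
    rw [Finset.map_singleton]
    exact IsProductOnce.base (X := withU X U) (some l)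
  | @prod S T Y Z hST _ _ ihY ihZ =>
    rw [Finset.map_union]
    exact IsProductOnce.prod ((Finset.disjoint_map _).2 hST) ihY ihZ

/-- Independence of the slopes with a system that contains the polynomial `X - 1`. -/
theorem independent_of_withU [Fact p.Prime] (he : 0 < e) {κ : Type} [Fintype κ]
    {𝓕 : κ → ℕ → Set ℚ[X]} {𝓖 : ℕ → Set ℚ[X]} (h𝓖 : Polynomial.X - Polynomial.C (1 : ℚ) ∈ 𝓖 0)
    (hU : Independent p e (withU 𝓕 𝓖) (Set.range some)) : Independent p e 𝓕 Set.univ := by
  intro d f hf hev N s hc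
  have key := hU (fun l => l.elim 0 d)
    (fun l => l.elim (Polynomial.X - Polynomial.C (1 : ℚ)) f) (by
      intro l
      cases l with
      | none => exact h𝓖
      | some l => exact hf l) (by
      rw [Fintype.sum_option]
      simpa using hev) N (fun l g => l.elim 0 (fun l => s l g)) ⟨hc.pos, by
      intro l x
      cases l with
      | none =>
        change {g : Fin N | (0 : ℝ) = x}.ncard *
          (Polynomial.X - Polynomial.C (1 : ℚ)).natDegree =
            slopeCount p e (Polynomial.X - Polynomial.C (1 : ℚ)) x * N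
        rw [slopeCount_X_sub_one he]
        have h3 : (Polynomial.X - Polynomial.C (1 : ℚ)).natDegree = 1 := natDegree_X_sub_C _
        rw [h3, mul_one]
        split_ifs with hx
        · subst hx
          have : {g : Fin N | (0 : ℝ) = 0} = Set.univ := by
            ext g
            simp
          rw [this, Set.ncard_univ, Nat.card_eq_fintype_card, Fintype.card_fin, one_mul]
        · have : {g : Fin N | (0 : ℝ) = x} = ∅ := by
            ext g
            simp [Ne.symm hx]
          rw [this, Set.ncard_empty, zero_mul]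
      | some l => exact hc.marginal l x, by
      intro g
      rw [Fintype.sum_option, Fintype.sum_option]
      have := hc.sum g
      simpa using this⟩
  intro l _
  exact key (some l) ⟨l, rfl⟩

/-- Independence of the slopes, with a system that consists of the polynomial `X - 1`. -/
theorem independent_withU_point [Fact p.Prime] (he : 0 < e) {κ : Type} [Fintype κ]
    {𝓕 : κ → ℕ → Set ℚ[X]} {𝓖 : ℕ → Set ℚ[X]}
    (h𝓖 : ∀ d, ∀ f ∈ 𝓖 d, d = 0 ∧ f = Polynomial.X - Polynomial.C (1 : ℚ))
    (hU : Independent p e 𝓕 Set.univ) : Independent p e (withU 𝓕 𝓖) (Set.range some) := by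
  intro d f hf hev N s hc
  obtain ⟨h1, h2⟩ := h𝓖 (d none) (f none) (hf none)
  have h3 : ∀ g, s none g = 0 := by
    intro g
    have h4 := exists_root_of_marginal (p := p) (e := e) (f := f none) (by
      rw [h2]
      exact irreducible_X_sub_C 1) (hc.marginal none) g
    obtain ⟨y, hy, hy'⟩ := h4
    rw [h2, map_sub, aeval_X, aeval_C, map_one, sub_eq_zero] at hy
    rw [hy, norm_one] at hy'
    refine slope_unique (p := p) he (x' := 0) ?_
    rw [← hy', neg_zero, Real.rpow_zero]
  have key := hU (fun l => d (some l)) (fun l => f (some l)) (fun l => hf (some l)) (by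
      rw [Fintype.sum_option, h1, zero_add] at hev
      exact hev) N (fun l g => s (some l) g) ⟨hc.pos, fun l x => hc.marginal (some l) x, by
      intro g
      have := hc.sum g
      rw [Fintype.sum_option, Fintype.sum_option, h3 g, h1, Nat.cast_zero, zero_add,
        zero_add] at this
      exact this⟩
  rintro _ ⟨l, rfl⟩
  exact key l (Set.mem_univ l)

/-- **Products of pure varieties are pure.** -/
theorem pure_product [IsAlgClosed K] [Fact p.Prime] (hfin : ∀ X, Module.Finite K (H.A X))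
    {κ : Type} [DecidableEq κ] {X : κ → 𝒱.Obj} (hD : ∀ l, IsPure H φ p e (X l)) {S : Finset κ}
    (hZ : IsProductOnce X S Z) : IsPure H φ p e Z := by
  intro i lam hlam
  obtain ⟨d, mu, h1, rfl, rfl⟩ := eigenvalue_product hfin hZ i lam hlam
  refine ⟨IsIntegral.prod _ fun l hl => (hD l _ _ (h1 l hl)).integral, ?_⟩
  intro z hz
  have hS : ∀ x ∈ mu '' (S : Set κ), IsIntegral ℚ x := by
    rintro x ⟨l, hl, rfl⟩
    exact (hD l _ _ (h1 l hl)).isIntegral
  have hM : ∀ l ∈ S, mu l ∈ IntermediateField.adjoin ℚ (mu '' (S : Set κ)) :=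
    fun l hl => IntermediateField.subset_adjoin ℚ _ ⟨l, hl, rfl⟩
  have hL : ∏ l ∈ S, mu l ∈ IntermediateField.adjoin ℚ (mu '' (S : Set κ)) := prod_mem hM
  obtain ⟨ψ, hψ⟩ := Pool.Agent.K4H33.TS.exists_emb hS hL hz
  have h2 : (⟨∏ l ∈ S, mu l, hL⟩ : IntermediateField.adjoin ℚ (mu '' (S : Set κ))) =
      ∏ l : S, (⟨mu l, hM l l.2⟩ : IntermediateField.adjoin ℚ (mu '' (S : Set κ))) := by
    apply Subtype.ext
    push_cast
    rw [Finset.prod_coe_sort S (fun l => mu l)]
  rw [← hψ, h2, map_prod, norm_prod, ← Finset.prod_pow]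
  have h3 : ∀ l : S, ‖ψ ⟨mu l, hM l l.2⟩‖ ^ 2 = ((p : ℝ) ^ e) ^ d l := fun l =>
    (hD l _ _ (h1 l l.2)).abs _
      (Pool.Agent.K4H33.TS.minpoly_root_of_hom ψ ⟨mu l, hM l l.2⟩)
  rw [Finset.prod_congr rfl fun l _ => h3 l, Finset.prod_coe_sort S (fun l => ((p : ℝ) ^ e) ^ d l),
    Finset.prod_pow_eq_pow_sum]

/-- the weights -/
lemma weight_of_pure [Fact p.Prime] (he : 0 < e) (hD : IsPure H φ p e Z) {i n : ℕ}
    (h : IsEigenvalue H φ Z i (((p ^ e : ℕ) : K) ^ n)) : i = 2 * n := by
  have hp1 : (1 : ℝ) < p := by exact_mod_cast (Fact.out : p.Prime).one_lt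
  have hq1 : (1 : ℝ) < (p : ℝ) ^ e := one_lt_pow₀ hp1 he.ne'
  have h1 := (hD i _ h).abs (((p ^ e : ℕ) : ℂ) ^ n) (by
    have h2 : ((p ^ e : ℕ) : K) ^ n = algebraMap ℚ K (((p ^ e : ℕ) : ℚ) ^ n) := by
      push_cast
      rfl
    rw [h2, minpoly.eq_X_sub_C, map_sub, aeval_X, aeval_C]
    push_cast
    ring)
  rw [norm_pow, Complex.norm_natCast] at h1
  push_cast at h1
  rw [← pow_mul] at h1
  have := pow_right_injective₀ (zero_lt_one.trans hq1) hq1.ne' h1
  omega

lemma parshin_of_prod {T : MotivicData C} (hT : IsMotivic T) (h : Parshin T (Z.prod P)) :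
    Parshin T Z := by
  intro m
  obtain ⟨a, -, ha, -⟩ := exists_deg_one C P
  set Γ : C.A ((Z.prod P).prod Z) := C.push (Obj.lift (𝟙 (Z.prod P)) (fst Z P))
    (C.pull (snd Z P) a) with hΓ
  have h1 : C.comp (C.cograph (fst Z P)) Γ = dg C Z := by
    have e1 : Obj.lift (𝟙 (Z.prod P)) (fst Z P) ≫ prodMap (fst Z P) (𝟙 Z) =
        fst Z P ≫ Obj.lift (𝟙 Z) (𝟙 Z) := by
      apply prod_ext <;> simp [comp_lift]
    rw [Pool.Agent.W484.CH.comp_cograph, hΓ, ← C.push_comp, e1, C.push_comp, ha Z]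
    rfl
  have h2 := hT.app_comp (C.cograph (fst Z P)) Γ m
  have h3 : compose C (C.cograph (fst Z P)) Γ = dg C Z := h1
  rw [h3, h (T.app (C.cograph (fst Z P)) m)] at h2
  have h4 : T.app (dg C Z) m = m := hT.app_id m
  rw [← h4, h2]
  exact map_zero _

section final

variable {κ : Type} [Fintype κ] [DecidableEq κ] {X : κ → 𝒱.Obj} [IsAlgClosed K] [Fact p.Prime]

theorem reduces_of_rel (he : 0 < e) (hS : IsStandard H) (hPZ : IsPure H φ p e Z)
    (hPU : IsPure H φ p e U) (hZ : TateOver H φ Z) (hrt : RelTrivial H φ Z U) : KReduces H φ Z U := by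
  intro hnil
  have hp1 : 1 < p ^ e := Nat.one_lt_pow he.ne' (Fact.out : p.Prime).one_lt
  have halg : ∀ (i : ℕ) (ρ : K), IsEigenvalue H φ (Z.prod U) i ρ → IsIntegral ℚ ρ := by
    intro i ρ hρ
    obtain ⟨i₁, i₂, μ₁, μ₂, rfl, rfl, h1, h2⟩ := eigenvalue_prod hS.finite hρ
    exact (hPZ _ _ h1).isIntegral.mul (hPU _ _ h2).isIntegral
  obtain ⟨J, hJ, deg, D, hDm, hT⟩ := kunneth_main hp1 hS halg
    (fun i n h => weight_of_pure he hPZ h) hZ hrt hnil
  refine ⟨J, hJ, deg, D, hDm, fun T hK hπ => ?_⟩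
  have h1 := hT T hK.motivic hπ
  refine ⟨h1, ?_⟩
  rw [parshin_iff hK, parshin_iff hK]
  refine forall_congr' fun n => ?_
  rw [vanishes_iff, vanishes_iff]
  exact Pool.Agent.W484.CH.vanish_iff (toCorr_isCorrTheory hK.motivic) h1 n

/-- **The coupling criterion for `Z × U`.** -/
theorem reduces (he : 0 < e) (hS : IsStandard H) (hD : ∀ l, IsPure H φ p e (X l))
    (hT : ∀ l, TateOver H φ (X l)) (hZ : IsProductOnce X Finset.univ Z) (U : 𝒱.Obj)
    (hPU : IsPure H φ p e U)
    (hU : Independent p e (withU (fun l => factors H φ (X l)) (factors H φ U))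
      (Set.range some)) : KReduces H φ Z U := by
  have hone : Polynomial.X - Polynomial.C (1 : ℚ) ∈ factors H φ U 0 :=
    ⟨1, one_isEigenvalue hS U, by rw [minpoly.one, Polynomial.C_1]⟩
  have hX := independent_of_withU he hone hU
  have hTZ := tateOver_family he hS hD hT hX hZ
  have hrt : RelTrivial H φ Z U := by
    refine relTrivial_of_independent (V := withU X U) (S := Finset.univ.map
      Function.Embedding.some) (T := {none}) (S' := Set.range some) he hS
      (by rintro (_ | l); exacts [hPU, hD l]) ?_ ?_ ?_ (productOnce_withU hZ U) ?_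
    · intro l hl
      obtain ⟨l', -, rfl⟩ := Finset.mem_map.1 hl
      exact ⟨l', rfl⟩
    · rw [withU_eq]
      exact hU
    · rw [Finset.disjoint_singleton_right]
      intro h
      obtain ⟨l', -, h⟩ := Finset.mem_map.1 h
      exact Option.some_ne_none l' h
    · exact IsProductOnce.base (X := withU X U) none
  exact reduces_of_rel he hS (pure_product hS.finite hD hZ) hPU hTZ hrt

/-- **The coupling criterion for `Z`.** -/
theorem parshin_holds (he : 0 < e) (hS : IsStandard H) (hD : ∀ l, IsPure H φ p e (X l))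
    (hT : ∀ l, TateOver H φ (X l)) (hZ : IsProductOnce X Finset.univ Z)
    (hX : Independent p e (fun l => factors H φ (X l)) Set.univ) : ParshinHolds H φ Z := by
  intro P hP hnil T hK hπ hPT
  have hpt' : ∀ d ρ, IsEigenvalue H φ P d ρ → d = 0 ∧ ρ = 1 := by
    rintro d ρ ⟨v, hv, hv0, hρ⟩
    have hd : d = 0 := by
      by_contra hd
      exact hv0 (hS.coh_top P d v (by rw [hP]; push_cast; omega) hv)
    subst hd
    refine ⟨rfl, ?_⟩
    obtain ⟨c, rfl⟩ := hS.coh_zero P v hv
    have h1 : (ρ - 1) • (c • (1 : H.A P)) = 0 := by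
      rw [sub_smul, ← hρ]
      change H.pull (φ.F P) (c • 1) - 1 • (c • 1) = 0
      rw [map_smul, map_one, one_smul, sub_self]
    exact sub_eq_zero.1 ((smul_eq_zero.1 h1).resolve_right hv0)
  have hpt : ∀ d, ∀ f ∈ factors H φ P d, d = 0 ∧ f = Polynomial.X - Polynomial.C (1 : ℚ) := by
    rintro d _ ⟨ρ, hρ, rfl⟩
    obtain ⟨hd, hρ1⟩ := hpt' d ρ hρ
    refine ⟨hd, ?_⟩
    rw [hρ1, minpoly.one, Polynomial.C_1]
  have hPP : IsPure H φ p e P := by
    intro d ρ hρ
    obtain ⟨rfl, rfl⟩ := hpt' d ρ hρ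
    refine ⟨isIntegral_one, fun z hz => ?_⟩
    rw [minpoly.one, map_sub, aeval_X, map_one, sub_eq_zero] at hz
    rw [hz, norm_one, one_pow, pow_zero]
  obtain ⟨J, hJ, deg, D, hDm, h1⟩ := reduces he hS hD hT hZ P hPP
    (independent_withU_point he hpt hX) hnil
  exact parshin_of_prod hK.motivic ((h1 T hK hπ).2.2 hPT)

end final

end Pool.Agent.K4H33.PK
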