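import Pool.Agent.K4H33.PK.Tate

/-!
# The Kunneth formula for theories on which correspondences act
-/

set_option autoImplicit false
set_option linter.unusedSectionVars false

open CategoryTheory AlgebraicGeometry Polynomial

universe u v w

namespace Pool.Agent.K4H33.PK

open Pool.Agent.H914 Pool.Agent.H914.VarClass Pool.Agent.H914.VarClass.Obj Pool.Agent.W492.BB
  Pool.Agent.W484.CK Pool.Agent.Y159.Par Pool.Agent.K4H33.WN Pool.Agent.W550.Corr
open Pool.Agent.W484.CH (homog_induction tr_fst tr_snd cl_smul tr_frob tr_eq_zero_of_push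
  exists_deg IsDual extBy pairBy proj act_proj_ext kunneth_core exists_poly
  act_cl_polyC polyC op hasKunneth_of)
open Pool.Agent.W458.MF (gen_mul gen_map span_gen_top mem_span_gen eig_mem_gen eq_of_mem_gen)

variable {k : Type u} [Field k] {𝒱 : VarClass k} {C : TheoryData.{u, v, 0} 𝒱 ℚ} {K : Type w}
  [Field K] [CharZero K] {H : WeilTheoryData.{u, v, w} C K} {Q : ℕ} {φ : FrobeniusFamily C Q}
  {X Y Z U : 𝒱.Obj} [hC : IsChow C] [hH : IsWeil H]

/-- The dual system in one codimension. -/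
theorem exists_dual_one (hS : IsStandard H) (A Z : 𝒱.Obj) {n : ℕ} (hn : n ≤ A.dim)
    (hnd : ∀ c ∈ AK H A n, (∀ c' ∈ AK H A (A.dim - n), H.tr A (c * c') = 0) → c = 0) :
    ∃ (m : ℕ) (D E : Fin m → C.A A), (∀ t, D t ∈ C.gr A n) ∧
      (∀ t, E t ∈ C.gr A (A.dim - n : ℕ)) ∧
      (∀ t u, C.push (snd A Z) (C.pull (fst A Z) (D t * E u)) = if t = u then 1 else 0) ∧
      AK H A n ≤ Submodule.span K (Set.range fun t => H.cl (D t)) := by
  classical
  have := hS.finite A
  obtain ⟨deg, hdeg⟩ := exists_deg (isStandard_bridge hS) A Z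
  -- a basis of classes
  obtain ⟨S, hS1, hS2, hS3⟩ := exists_linearIndependent K
    {c : H.A A | ∃ D : C.A A, C.Deg n D ∧ c = H.cl D}
  have hfin : S.Finite := hS3.setFinite
  have hft := hfin.fintype
  let e := Fintype.equivFin S
  have hD : ∀ t : Fin (Fintype.card S), ∃ D : C.A A, C.Deg n D ∧ (e.symm t : H.A A) = H.cl D :=
    fun t => hS1 (e.symm t).2
  choose D hDm hDcl using hD
  have hli : LinearIndependent K (fun t => H.cl (D t)) := by
    have h2 : (fun t => H.cl (D t)) = (fun x : S => (x : H.A A)) ∘ e.symm := by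
      funext t
      exact (hDcl t).symm
    rw [h2]
    exact hS3.comp _ e.symm.injective
  have hspan : AK H A n ≤ Submodule.span K (Set.range fun t => H.cl (D t)) := by
    unfold AK
    rw [← hS2]
    refine Submodule.span_mono ?_
    intro x hx
    refine ⟨e ⟨x, hx⟩, ?_⟩
    beta_reduce
    rw [← hDcl, Equiv.symm_apply_apply]
  -- the pairing
  let 𝒮 : Submodule ℚ (C.A A) := C.gr A (A.dim - n : ℕ)
  let ψ : 𝒮 →ₗ[ℚ] (Fin (Fintype.card S) → ℚ) :=
    LinearMap.pi fun t => deg ∘ₗ LinearMap.mulLeft ℚ (D t) ∘ₗ 𝒮.subtype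
  have hψ : ∀ E t, ψ E t = deg (D t * E) := fun _ _ => rfl
  have hmem : ∀ t (E : 𝒮), D t * E ∈ C.gr A A.dim := by
    intro t E
    have h2 := C.mul_mem (hDm t) E.2
    rwa [show (n : ℤ) + ((A.dim - n : ℕ) : ℤ) = A.dim by omega] at h2
  have hsurj : LinearMap.range ψ = ⊤ := by
    by_contra hne
    obtain ⟨f, hf0, hf⟩ := Submodule.exists_le_ker_of_lt_top _ (lt_top_iff_ne_top.2 hne)
    apply hf0
    -- the class
    set c : H.A A := ∑ t, ((f (Pi.single t 1) : ℚ) : K) • H.cl (D t) with hc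
    set z : C.A A := ∑ t, f (Pi.single t 1) • D t with hz
    have hcz : c = H.cl z := by
      rw [hc, hz, map_sum]
      exact Finset.sum_congr rfl fun t _ => (cl_smul _ _).symm
    have hcm : c ∈ AK H A n :=
      Submodule.sum_mem _ fun t _ => Submodule.smul_mem _ _ (Submodule.subset_span
        ⟨D t, hDm t, rfl⟩)
    have hc0 : c = 0 := by
      refine hnd c hcm ?_
      intro c' hc'
      unfold AK at hc'
      induction hc' using Submodule.span_induction with
      | mem c' hc' =>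
        obtain ⟨E, hE, rfl⟩ := hc'
        apply tr_eq_zero_of_push Z
        rw [hcz, ← map_mul, ← H.cl_pull, ← H.cl_push]
        have hE' : E ∈ 𝒮 := hE
        have h2 : C.push (snd A Z) (C.pull (fst A Z) (z * E)) = 0 := by
          have h3 : z * E ∈ C.gr A A.dim := by
            rw [hz, Finset.sum_mul]
            refine Submodule.sum_mem _ fun t _ => ?_
            rw [smul_mul_assoc]
            exact Submodule.smul_mem _ _ (hmem t ⟨E, hE'⟩)
          rw [hdeg _ h3]
          have h4 : f (ψ ⟨E, hE'⟩) = 0 := hf ⟨_, rfl⟩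
          have h5 : deg (z * E) = f (ψ ⟨E, hE'⟩) := by
            have h6 : ψ ⟨E, hE'⟩ = ∑ t, deg (D t * E) • Pi.single (M := fun _ => ℚ) t 1 := by
              funext t
              rw [hψ, Finset.sum_apply]
              simp [Pi.single_apply]
            rw [h6, map_sum, hz, Finset.sum_mul, map_sum]
            refine Finset.sum_congr rfl fun t _ => ?_
            rw [smul_mul_assoc, map_smul, map_smul, smul_eq_mul, smul_eq_mul, mul_comm]
          rw [h5, h4, zero_smul]
        rw [h2, map_zero]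
      | zero => rw [mul_zero, map_zero]
      | add x y _ _ hx hy => rw [mul_add, map_add, hx, hy, add_zero]
      | smul a x _ hx => rw [mul_smul_comm, map_smul, hx, smul_zero]
    have h2 := Fintype.linearIndependent_iff.1 hli (fun t => ((f (Pi.single t 1) : ℚ) : K))
      (by rw [← hc, hc0])
    ext t
    have h3 := h2 t
    have h4 : f (Pi.single t 1) = 0 := by exact_mod_cast h3
    simpa using h4
  have hE : ∀ u, ∃ E : 𝒮, ψ E = Pi.single u 1 := by
    intro u
    have h2 : (Pi.single u 1 : Fin (Fintype.card S) → ℚ) ∈ LinearMap.range ψ := by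
      rw [hsurj]
      exact Submodule.mem_top
    exact h2
  choose E hE using hE
  refine ⟨Fintype.card S, D, fun u => E u, hDm, fun u => (E u).2, fun t u => ?_, hspan⟩
  rw [hdeg _ (hmem t (E u)), ← hψ, hE, Pi.single_apply]
  split_ifs
  · rw [one_smul]
  · rw [zero_smul]

/-- **The dual system.** -/
theorem exists_dual (hS : IsStandard H) (A Z : 𝒱.Obj)
    (hnd : ∀ n ≤ A.dim, ∀ c ∈ AK H A n,
      (∀ c' ∈ AK H A (A.dim - n), H.tr A (c * c') = 0) → c = 0) :
    ∃ (J : Type) (_ : Fintype J) (deg : J → ℕ) (D E : J → C.A A),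
      IsDual A Z deg D E ∧
      ∀ n, AK H A n ≤ Submodule.span K {c | ∃ j, deg j = n ∧ c = H.cl (D j)} := by
  classical
  choose m D E hD hE hDE hspan using fun n : Fin (A.dim + 1) =>
    exists_dual_one hS A Z (n := n) (by omega) (hnd n (by omega))
  refine ⟨Σ n : Fin (A.dim + 1), Fin (m n), inferInstance, fun j => j.1, fun j => D j.1 j.2,
    fun j => E j.1 j.2, ⟨fun j => by omega, fun j => hD j.1 j.2, fun j => ?_,
    fun j => ?_, fun i j hij => ?_⟩, fun n => ?_⟩
  · have h2 := hE j.1 j.2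
    have h3 : ((A.dim - (j.1 : ℕ) : ℕ) : ℤ) = (A.dim : ℤ) - (j.1 : ℕ) := by omega
    rw [h3] at h2
    exact h2
  · rw [hDE, if_pos rfl]
  · have hDi := hD i.1 i.2
    by_cases h2 : i.1 = j.1
    · obtain ⟨n, t⟩ := i
      obtain ⟨n', u⟩ := j
      dsimp only at h2
      subst h2
      rw [hDE, if_neg]
      intro h3
      dsimp only at h3
      subst h3
      exact hij rfl
    · have h3 := C.mul_mem hDi (hE j.1 j.2)
      rcases lt_or_gt_of_ne h2 with h4 | h4
      · have h5 := C.push_mem (snd A Z) (C.pull_mem (fst A Z) h3)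
        rw [C.gr_neg _ _ (by
          rw [Obj.dim_prod]
          push_cast
          have : (i.1 : ℕ) < (j.1 : ℕ) := h4
          omega)] at h5
        exact (Submodule.mem_bot _).1 h5
      · have h5 := hS.chow_top A _ _ (by
          have : (j.1 : ℕ) < (i.1 : ℕ) := h4
          omega) h3
        rw [h5, map_zero, map_zero]
  · rcases Nat.lt_or_ge A.dim n with h2 | h2
    · have h3 : AK H A n ≤ ⊥ := by
        refine Submodule.span_le.2 ?_
        rintro _ ⟨D', hD', rfl⟩
        have h4 := hS.chow_top A n D' (by exact_mod_cast h2) hD'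
        rw [h4, map_zero]
        exact Submodule.zero_mem _
      exact h3.trans bot_le
    · refine (hspan ⟨n, by omega⟩).trans (Submodule.span_mono ?_)
      rintro _ ⟨t, rfl⟩
      exact ⟨⟨⟨n, by omega⟩, t⟩, rfl, rfl⟩

/-- The span of the external products of classes of cycles and arbitrary classes. -/
noncomputable def mixA (H : WeilTheoryData.{u, v, w} C K) (A Z : 𝒱.Obj) : Submodule K (H.A (A.prod Z)) :=
  Submodule.span K {c | ∃ (n : ℕ) (a : H.A A) (h : H.A Z), a ∈ AK H A n ∧ c = H.ext a h}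

theorem act_proj_mixA {A Z : 𝒱.Obj} {J : Type} [Fintype J] {deg : J → ℕ} {D E : J → C.A A}
    (h : IsDual A Z deg D E)
    (hN : ∀ n, AK H A n ≤ Submodule.span K {c | ∃ j, deg j = n ∧ c = H.cl (D j)})
    {w : H.A (A.prod Z)} (hw : w ∈ mixA H A Z) :
    H.act (H.cl (proj Z D E)) w = w := by
  unfold mixA at hw
  induction hw using Submodule.span_induction with
  | mem w hw =>
    obtain ⟨n, a, y, ha, rfl⟩ := hw
    have ha' := hN n ha
    clear ha
    rw [← extB_apply]
    induction ha' using Submodule.span_induction with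
    | mem a ha =>
      obtain ⟨j, -, rfl⟩ := ha
      exact act_proj_ext h j y
    | zero => rw [map_zero, LinearMap.zero_apply, H.act_map_zero]
    | add a a' _ _ ha ha' => rw [map_add, LinearMap.add_apply, act_map_add, ha, ha']
    | smul c a _ ha => rw [map_smul, LinearMap.smul_apply, act_map_smul, ha]
  | zero => rw [H.act_map_zero]
  | add w w' _ _ hw hw' => rw [act_map_add, hw, hw']
  | smul c w _ hw => rw [act_map_smul, hw]

/-- Every element is the sum of homogeneous ones, for generalised eigenvectors. -/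
lemma gen_homog [IsAlgClosed K] (hfin : ∀ X, Module.Finite K (H.A X)) {ρ : K}
    {x : H.A (X.prod Y)} (hρ : x ∈ (fr H φ (X.prod Y)).maxGenEigenspace ρ) :
    x ∈ Submodule.span K {c | ∃ (m : ℤ), c ∈ Gens H φ X Y m ∧
      c ∈ (fr H φ (X.prod Y)).maxGenEigenspace ρ} := by
  have h1 : x ∈ Submodule.span K {c | ∃ m : ℤ, c ∈ Gens H φ X Y m} := by
    refine homog_induction H.toTheoryData
      (p := fun x => x ∈ Submodule.span K {c | ∃ m : ℤ, c ∈ Gens H φ X Y m}) ?_ ?_ x
    · intro m x hx
      refine Submodule.span_mono ?_ (span_gens (φ := φ) hfin hx)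
      intro c hc
      exact ⟨m, hc⟩
    · intro a b ha hb
      exact Submodule.add_mem _ ha hb
  have h2 := mem_span_gen (M := {c | ∃ m : ℤ, c ∈ Gens H φ X Y m}) (by
    rintro c ⟨m, hc⟩
    exact gens_gen c hc) h1 hρ
  refine Submodule.span_mono ?_ h2
  rintro c ⟨⟨m, hm⟩, hc⟩
  exact ⟨m, hm, hc⟩

/-- **Generalised eigenvectors lie in the mixed part.** -/
theorem mem_mixA [IsAlgClosed K] (hfin : ∀ X, Module.Finite K (H.A X))
    (hZ : TateOver H φ Z) (hrt : RelTrivial H φ Z U) {c : ℤ} {x : H.A (Z.prod U)}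
    (hx : x ∈ (fr H φ (Z.prod U)).maxGenEigenspace ((Q : K) ^ c)) : x ∈ mixA H Z U := by
  refine (Submodule.span_le.2 ?_) (gen_homog hfin hx)
  rintro _ ⟨m, ⟨l, μ, ν, a, b, ha, hb, hμ, hν, rfl⟩, hc⟩
  by_cases h0 : H.ext a b = 0
  · rw [h0]
    exact Submodule.zero_mem _
  have ha0 : a ≠ 0 := by
    rintro rfl
    exact h0 (H.ext_zero_left _)
  have hb0 : b ≠ 0 := by
    rintro rfl
    exact h0 (H.ext_zero_right _)
  obtain ⟨i, rfl, h2⟩ := exists_degree ha ha0 hμ
  obtain ⟨j, hj, h3⟩ := exists_degree hb hb0 hν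
  have h4 := eq_of_mem_gen (ext_gen hμ hν) hc h0
  obtain ⟨n, rfl, rfl⟩ := eigen_of_rel hZ hrt h2 h3 one_pos (c := c) (by
    rw [pow_one, h4]
    congr 1
    push_cast
    ring)
  exact Submodule.subset_span ⟨n, a, b, mem_AK_of_gen hZ ha hμ, rfl⟩

/-- **The Kunneth formula.** -/
theorem kunneth_main [IsAlgClosed K] (hQ1 : 1 < Q) (hS : IsStandard H)
    (halg : ∀ (i : ℕ) (ρ : K), IsEigenvalue H φ (Z.prod U) i ρ → IsIntegral ℚ ρ)
    (hdeg : ∀ (i n : ℕ), IsEigenvalue H φ Z i ((Q : K) ^ n) → i = 2 * n)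
    (hZ : TateOver H φ Z) (hrt : RelTrivial H φ Z U) (hnil : Nilpotence H (Z.prod U)) :
    ∃ (J : Type) (_ : Fintype J) (deg : J → ℕ) (D : J → C.A Z),
      (∀ j, C.Deg (deg j) (D j)) ∧ ∀ T : MotivicData C, IsMotivic T →
        ActsAsPower T (φ.F (Z.prod U)) Q → HasKunneth T Z U deg D := by
  obtain ⟨J, hJ, deg, D, E, hdual, hN⟩ := exists_dual hS Z U
    (fun n hn c hc h => AK_nondeg hQ1 hS.finite hdeg hZ hn hc h)
  refine ⟨J, hJ, deg, D, hdual.left, fun T hT hπ => ?_⟩
  have hfinX : Module.Finite K (H.A (Z.prod U)) := hS.finite _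
  refine hasKunneth_of (T := toCorr T) hdual (toCorr_isCorrTheory hT) fun i m hm => ?_
  obtain ⟨P, hP, m', hPm⟩ := exists_poly (Pool.Agent.W484.CH.frob H (φ.F (Z.prod U)))
    ((Q : ℚ) ^ i) (by
    intro μ v hv0 hv
    -- a homogeneous component
    by_contra hcon
    have hv' : v ∈ (fr H φ (Z.prod U)).maxGenEigenspace μ := eig_mem_gen hv
    apply hv0
    have h1 := gen_homog hS.finite hv'
    have h2 : Submodule.span K {c | ∃ (m : ℤ), c ∈ Gens H φ Z U m ∧
      c ∈ (fr H φ (Z.prod U)).maxGenEigenspace μ} ≤ ⊥ := by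
      refine Submodule.span_le.2 ?_
      rintro c ⟨m, ⟨l, μ', ν', a, b, ha, hb, -, -, rfl⟩, hc⟩
      by_contra h0
      have h3 : H.ext a b ∈ H.gr (Z.prod U) (l + (m - l)) := ext_mem ha hb
      obtain ⟨n, -, hn⟩ := exists_degree h3 (fun h => h0 (by rw [h]; exact Submodule.zero_mem _))
        hc
      exact hcon (halg n μ hn)
    exact (Submodule.mem_bot _).1 (h2 h1))
  refine kunneth_core hdual (toCorr_isCorrTheory hT) (toCorr_actsAsPower hπ)
    (nilpotence_bridge hnil) i P hP (fun w => ?_) hm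
  apply act_proj_mixA hdual hN
  rw [act_cl_polyC]
  refine mem_mixA (c := i) hS.finite hZ hrt ((Module.End.mem_maxGenEigenspace _ _ _).2 ⟨m', ?_⟩)
  have h2 := hPm w
  push_cast at h2
  exact h2

end Pool.Agent.K4H33.PK
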