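import Pool.Agent.K4H33.PK.Eigen

/-!
# Trivial relations between the eigenvalues and the Tate conjecture for products
-/

set_option autoImplicit false
set_option linter.unusedSectionVars false

open CategoryTheory AlgebraicGeometry Polynomial

universe u v w

namespace Pool.Agent.K4H33.PK

open Pool.Agent.H914 Pool.Agent.H914.VarClass Pool.Agent.H914.VarClass.Obj Pool.Agent.W492.BB
  Pool.Agent.W484.CK Pool.Agent.Y159.Par Pool.Agent.K4H33.WN Pool.Agent.W550.Corr
open Pool.Agent.W484.CH (homog_induction tr_fst tr_snd cl_smul tr_frob tr_eq_zero_of_push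
  exists_deg)
open Pool.Agent.W458.MF (gen_mul gen_map span_gen_top mem_span_gen eig_mem_gen eq_of_mem_gen)

variable {k : Type u} [Field k] {𝒱 : VarClass k} {C : TheoryData.{u, v, 0} 𝒱 ℚ} {K : Type w}
  [Field K] [CharZero K] {H : WeilTheoryData.{u, v, w} C K} {Q : ℕ} {φ : FrobeniusFamily C Q}
  {X Y Z U : 𝒱.Obj}

/-- The span of the classes of cycles of codimension `n`. -/
def AK (H : WeilTheoryData.{u, v, w} C K) (X : 𝒱.Obj) (n : ℕ) : Submodule K (H.A X) :=
  Submodule.span K {c | ∃ D : C.A X, C.Deg n D ∧ c = H.cl D}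

/-- The relations between the eigenvalues of `Z` and `U` are trivial. -/
def RelTrivial (H : WeilTheoryData.{u, v, w} C K) (φ : FrobeniusFamily C Q) (Z U : 𝒱.Obj) :
    Prop :=
  ∀ (i j b : ℕ) (c : ℤ) (lam mu : K), IsEigenvalue H φ Z i lam → IsEigenvalue H φ U j mu →
    0 < b → (lam * mu) ^ b = (Q : K) ^ ((b : ℤ) * c) →
      ∃ m n : ℕ, i = 2 * m ∧ 0 < n ∧ lam ^ n = (Q : K) ^ (m * n)

section

variable [hC : IsChow C] [hH : IsWeil H]

lemma iterate_eq' {n : ℕ} (m : ℕ) (x : H.A X) : (frobMinus H φ X n)^[m] x =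
    ((fr H φ X - (Q : K) ^ n • (1 : Module.End K (H.A X))) ^ m) x := by
  induction m generalizing x with
  | zero => rfl
  | succ m ih =>
    rw [Function.iterate_succ_apply, ih, pow_succ, Module.End.mul_apply]
    rfl

lemma mem_AK_of_gen (hX : TateOver H φ X) {n : ℕ} {x : H.A X} (hx : x ∈ H.gr X (2 * n : ℕ))
    (h : x ∈ (fr H φ X).maxGenEigenspace ((Q : K) ^ n)) : x ∈ AK H X n := by
  rw [Module.End.mem_maxGenEigenspace] at h
  obtain ⟨m, hm⟩ := h
  exact hX.tate n m x hx ((iterate_eq' m x).trans hm)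

lemma AK_mem {n : ℕ} {c : H.A X} (hc : c ∈ AK H X n) : c ∈ H.gr X (2 * n : ℕ) := by
  unfold AK at hc
  refine (Submodule.span_le.2 ?_) hc
  rintro _ ⟨D, hD, rfl⟩
  have := H.cl_mem hD
  push_cast
  exact this

lemma AK_eigen {n : ℕ} {c : H.A X} (hc : c ∈ AK H X n) : fr H φ X c = (Q : K) ^ n • c := by
  unfold AK at hc
  induction hc using Submodule.span_induction with
  | mem c hc =>
    obtain ⟨D, hD, rfl⟩ := hc
    have h1 : C.pull (φ.F X) D = (Q : ℚ) ^ n • D := (φ.isFrobenius X).chow n D hD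
    rw [fr_apply, ← H.cl_pull, h1, cl_smul]
    push_cast
    rfl
  | zero => rw [map_zero, smul_zero]
  | add x y _ _ hx hy => rw [map_add, hx, hy, smul_add]
  | smul a x _ hx => rw [map_smul, hx, smul_comm]

lemma ext_AK {m n : ℕ} {a : H.A X} {b : H.A Y} (ha : a ∈ AK H X m) (hb : b ∈ AK H Y n) :
    H.ext a b ∈ AK H (X.prod Y) (m + n) := by
  rw [← extB_apply]
  unfold AK at ha hb
  induction ha using Submodule.span_induction with
  | mem a ha =>
    obtain ⟨D, hD, rfl⟩ := ha
    induction hb using Submodule.span_induction with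
    | mem b hb =>
      obtain ⟨E, hE, rfl⟩ := hb
      refine Submodule.subset_span ⟨C.ext D E, ?_, ?_⟩
      · have := C.mul_mem (C.pull_mem (fst X Y) hD) (C.pull_mem (snd X Y) hE)
        push_cast
        exact this
      · rw [extB_apply, TheoryData.ext, TheoryData.ext, map_mul, H.cl_pull, H.cl_pull]
    | zero => rw [map_zero]; exact Submodule.zero_mem _
    | add x y _ _ hx hy => rw [map_add]; exact Submodule.add_mem _ hx hy
    | smul c x _ hx => rw [map_smul]; exact Submodule.smul_mem _ _ hx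
  | zero => rw [map_zero, LinearMap.zero_apply]; exact Submodule.zero_mem _
  | add x y _ _ hx hy => rw [map_add, LinearMap.add_apply]; exact Submodule.add_mem _ hx hy
  | smul c x _ hx => rw [map_smul, LinearMap.smul_apply]; exact Submodule.smul_mem _ _ hx

/-- The eigenvalue is known, if the relations are trivial. -/
lemma eigen_of_rel (hZ : TateOver H φ Z) (hrt : RelTrivial H φ Z U) {i j b : ℕ} {c : ℤ}
    {lam mu : K} (h1 : IsEigenvalue H φ Z i lam) (h2 : IsEigenvalue H φ U j mu) (hb : 0 < b)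
    (hrel : (lam * mu) ^ b = (Q : K) ^ ((b : ℤ) * c)) :
    ∃ m : ℕ, i = 2 * m ∧ lam = (Q : K) ^ m := by
  obtain ⟨m, n, rfl, hn, h3⟩ := hrt i j b c lam mu h1 h2 hb hrel
  exact ⟨m, rfl, hZ.rational m n lam h1 hn h3⟩

/-- **The Tate conjecture for products with trivial relations.** -/
theorem tateOver_prod [IsAlgClosed K] (hQ : (Q : K) ≠ 0) (hfin : ∀ X, Module.Finite K (H.A X))
    (hY : TateOver H φ Y) (hZ : TateOver H φ Z) (hrt : RelTrivial H φ Y Z) :
    TateOver H φ (Y.prod Z) := by
  constructor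
  · intro n N ρ hρ hN hpow
    obtain ⟨i, j, μ, ν, hij, rfl, hμ, hν⟩ := eigenvalue_prod hfin hρ
    obtain ⟨m, rfl, rfl⟩ := eigen_of_rel hY hrt hμ hν hN (c := n) (by
      rw [hpow, ← zpow_natCast]
      congr 1
      push_cast
      ring)
    obtain ⟨l, rfl⟩ : ∃ l, j = 2 * l := ⟨n - m, by omega⟩
    obtain rfl : n = m + l := by omega
    have h1 : ν = (Q : K) ^ l := by
      refine hZ.rational l N ν hν hN ?_
      rw [mul_pow, ← pow_mul, add_mul, pow_add] at hpow
      exact mul_left_cancel₀ (pow_ne_zero _ hQ) hpow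
    rw [h1, pow_add]
  · intro n m x hx hm
    have h1 : x ∈ (fr H φ (Y.prod Z)).maxGenEigenspace ((Q : K) ^ n) :=
      (Module.End.mem_maxGenEigenspace _ _ _).2 ⟨m, (iterate_eq' m x).symm.trans hm⟩
    have h2 := gen_prod hfin hx h1
    refine (Submodule.span_le.2 ?_) h2
    rintro _ ⟨i, j, μ, ν, a, b, hij, hμν, hμ, hν, ha, hb, ha', hb', rfl⟩
    obtain ⟨l, rfl, rfl⟩ := eigen_of_rel hY hrt hμ hν one_pos (c := n) (by
      rw [pow_one, hμν, ← zpow_natCast]
      congr 1
      push_cast
      ring)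
    obtain ⟨l', rfl⟩ : ∃ l', j = 2 * l' := ⟨n - l, by omega⟩
    obtain rfl : n = l + l' := by omega
    rw [pow_add] at hμν
    have h3 := mul_left_cancel₀ (pow_ne_zero _ hQ) hμν
    rw [h3] at hb'
    exact ext_AK (mem_AK_of_gen hY ha ha') (mem_AK_of_gen hZ hb hb')

/-- The intersection pairing on the classes of cycles is nondegenerate. -/
theorem AK_nondeg [IsAlgClosed K] (hQ1 : 1 < Q) (hfin : ∀ X, Module.Finite K (H.A X))
    (hdeg : ∀ (i n : ℕ), IsEigenvalue H φ Z i ((Q : K) ^ n) → i = 2 * n)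
    (hZ : TateOver H φ Z) {n : ℕ} (hn : n ≤ Z.dim) {c : H.A Z} (hc : c ∈ AK H Z n)
    (h : ∀ c' ∈ AK H Z (Z.dim - n), H.tr Z (c * c') = 0) : c = 0 := by
  have hQK : (Q : K) ≠ 0 := by
    have : Q ≠ 0 := by omega
    exact_mod_cast this
  apply H.nondeg
  intro y
  refine homog_induction H.toTheoryData (p := fun y => H.tr Z (c * y) = 0) ?_ ?_ y
  · intro i y hy
    have h1 := span_homog (φ := φ) (hfin Z) hy
    clear hy
    induction h1 using Submodule.span_induction with
    | mem y hy =>
      obtain ⟨μ, hy, hμ⟩ := hy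
      by_cases hy0 : y = 0
      · rw [hy0, mul_zero, map_zero]
      obtain ⟨j, rfl, hj⟩ := exists_degree hy hy0 hμ
      by_cases hQμ : μ = (Q : K) ^ (Z.dim - n)
      · subst hQμ
        obtain rfl := hdeg j _ hj
        exact h y (mem_AK_of_gen hZ hy hμ)
      · -- the trace of a generalised eigenvector
        have h2 : c * y ∈ (fr H φ Z).maxGenEigenspace ((Q : K) ^ n * μ) := by
          refine gen_mul (LinearMap.mul K (H.A Z)) (T := fr H φ Z) (T' := fr H φ Z)
            (T'' := fr H φ Z) (fun x y => ?_) (eig_mem_gen (AK_eigen hc)) hμ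
          rw [LinearMap.mul_apply', LinearMap.mul_apply', fr_apply, map_mul]
          rfl
        have h3 := gen_map (θ := H.tr Z) (T := fr H φ Z)
          (T' := ((Q : K) ^ Z.dim • (1 : Module.End K K))) (c := (1 : K))
          (ν := (Q : K) ^ n * μ) (fun x => by
            rw [one_smul, fr_apply]
            have := tr_frob (H := H) (Pool.Agent.W484.CK.isFrobenius_bridge (φ.isFrobenius Z)) x
            rw [this]
            rfl) h2
        rw [one_mul] at h3
        by_contra h0
        have h4 : H.tr Z (c * y) ∈ (((Q : K) ^ Z.dim • (1 : Module.End K K))).maxGenEigenspace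
            ((Q : K) ^ Z.dim) := eig_mem_gen rfl
        have h5 := eq_of_mem_gen h3 h4 h0
        apply hQμ
        have h6 : (Q : K) ^ n * (Q : K) ^ (Z.dim - n) = (Q : K) ^ Z.dim := by
          rw [← pow_add]
          congr 1
          omega
        rw [← h6] at h5
        exact mul_left_cancel₀ (pow_ne_zero _ hQK) h5
    | zero => rw [mul_zero, map_zero]
    | add x y _ _ hx hy => rw [mul_add, map_add, hx, hy, add_zero]
    | smul c x _ hx => rw [mul_smul_comm, map_smul, hx, smul_zero]
  · intro a b ha hb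
    rw [mul_add, map_add, ha, hb, add_zero]

end

end Pool.Agent.K4H33.PK
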